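import Mathlib
import Pool.Agent.H686R2.Dow.Tree
import Pool.Agent.H686R2.Dow.NoLusin
import Pool.Agent.H686R2.Dow.Seal
import Pool.Agent.H686R2.Dow.Reals

/-!
# MP_cba831_lc: a first countable, locally countable Dowker space of size `ℵ₁` does not give a
Lusin set

Some forcing notion `P` forces, over an arbitrary ground model: `ω₁` is preserved, there is a
(normal) Souslin tree, and every family of `ℵ₁` reals is covered by one meager set
(`ForcesSouslinTree`, `ForcesRealsSmall`). The sentences forced are, word for word, the hypotheses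
`∃ T, NormalSouslinTree T` and `RealsSmall` of two theorems of ZFC: the first one gives a first
countable, locally countable Dowker space of size `ℵ₁`, the second one says that there is no
Lusin set.
-/

set_option autoImplicit false

namespace Pool.Agent.Results.MP_cba831_lc.DowkerWithoutLusin

open Cardinal Topology

/-! ### The topological notions -/

/-- Countable paracompactness: every countable open cover has a locally finite open refinement
(again a cover). -/
def CountablyParacompact (X : Type) [TopologicalSpace X] : Prop :=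
  ∀ U : ℕ → Set X, (∀ n, IsOpen (U n)) → (⋃ n, U n) = Set.univ →
    ∃ (ι : Type) (V : ι → Set X), (∀ i, IsOpen (V i)) ∧ (⋃ i, V i) = Set.univ ∧
      LocallyFinite V ∧ ∀ i, ∃ n, V i ⊆ U n

/-- A Dowker space: normal, `T₁`, not countably paracompact. -/
def IsDowker (X : Type) [TopologicalSpace X] : Prop :=
  T1Space X ∧ NormalSpace X ∧ ¬ CountablyParacompact X

/-- every point has a countable open neighbourhood -/
def LocallyCountable (X : Type) [TopologicalSpace X] : Prop :=
  ∀ x : X, ∃ U : Set X, IsOpen U ∧ x ∈ U ∧ U.Countable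

/-- a Lusin set: uncountable, with countable intersection with every meager set -/
def IsLusin (L : Set ℝ) : Prop := ¬ L.Countable ∧ ∀ M : Set ℝ, IsMeagre M → (L ∩ M).Countable

/-- The well-ordered set of the countable ordinals (order type `ω₁`). -/
abbrev Om : Type := (ℵ₁ : Cardinal.{0}).ord.ToType

/-! ### The two hypotheses, evaluated in the universe -/

/-- `T` is the order relation of a normal Souslin tree whose `α`-th level is `{α} × ℕ`: it is
reflexive and transitive, it goes up in the levels, every node has exactly one predecessor on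
every lower level and infinitely many successors on every higher level, and among any `ω₁` nodes
two (with different indices) are comparable, i.e. there is no uncountable antichain. -/
def NormalSouslinTree (T : Om × ℕ → Om × ℕ → Prop) : Prop :=
  (∀ x, T x x) ∧
  (∀ x y z, T x y ∧ T y z → T x z) ∧
  (∀ x y, T x y → x.1 ≤ y.1) ∧
  (∀ (y : Om × ℕ) (α : Om), α ≤ y.1 → ∃ n : ℕ, T (α, n) y) ∧
  (∀ (y : Om × ℕ) (α : Om) (n n' : ℕ), T (α, n) y ∧ T (α, n') y → n = n') ∧
  (∀ (x : Om × ℕ) (β : Om), x.1 < β → ∀ N : ℕ, ∃ m : ℕ, N ≤ m ∧ T x (β, m)) ∧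
  (∀ f : Om → Om × ℕ → Prop, ((∀ a, ∃ x, f a x) ∧ ∀ a x y, f a x ∧ f a y → x = y) →
    ∃ a b : Om, a ≠ b ∧ ∃ x y : Om × ℕ, (f a x ∧ f b y) ∧ T x y)

/-- For every `ω₁`-indexed family `x` of subsets of `ℕ` there is a subset `r` of `ℕ` such that for
every index `a` and for all but finitely many `n` the sets `x a` and `r` differ on the block
`{pair n i | i < n}`. (The set of all `y` with this property is meager.) -/
def RealsSmall : Prop :=
  ∀ x : Om → ℕ → Prop, ∃ r : ℕ → Prop, ∀ a : Om, ∃ N : ℕ, ∀ n : ℕ, N ≤ n →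
    ∃ i : ℕ, i < n ∧ ¬ (x a (Nat.pair n i) ↔ r (Nat.pair n i))

/-! ### Forcing: a sentence is identified with the set of the conditions which force it -/

section

universe v

variable {P : Type} [Preorder P]

/-- `p` forces `not φ` iff no stronger condition forces `φ`. -/
def fnot (φ : Set P) : Set P := {p | ∀ q ≤ p, q ∉ φ}

/-- `p` forces `φ and ψ` iff it forces both. -/
def fand (φ ψ : Set P) : Set P := {p | p ∈ φ ∧ p ∈ ψ}

/-- `p` forces `for all i, φ i` iff it forces every `φ i`. -/
def fall {ι : Sort v} (φ : ι → Set P) : Set P := {p | ∀ i, p ∈ φ i}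

/-- `φ implies ψ` is `not (φ and not ψ)`. -/
def fimp (φ ψ : Set P) : Set P := fnot (fand φ (fnot ψ))

/-- `φ if and only if ψ`. -/
def fiff (φ ψ : Set P) : Set P := fand (fimp φ ψ) (fimp ψ φ)

/-- `there is i with φ i` is `not for all i, not φ i`. -/
def fex {ι : Sort v} (φ : ι → Set P) : Set P := fnot (fall fun i => fnot (φ i))

/-- An absolute statement about ground model objects. -/
def fground (h : Prop) : Set P := {_p | h}

/-- `p` forces that the generic filter meets the set `N` of conditions:
the set of `r` lying below some member of `N` is dense below `p`. -/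
def meets (N : Set P) : Set P := {p | ∀ q ≤ p, ∃ r ≤ q, ∃ s ∈ N, r ≤ s}

/-- The relation named by `R` is a function from `X` to `Y`. -/
def IsFun {X Y : Type} (R : X → Y → Set P) : Set P :=
  fand (fall fun x => fex fun y => meets (R x y))
    (fall fun x => fall fun y => fall fun y' =>
      fimp (fand (meets (R x y)) (meets (R x y'))) (fground (y = y')))

/-- The relation named by `R` is onto `Y`. -/
def IsOnto {X Y : Type} (R : X → Y → Set P) : Set P :=
  fall fun y => fex fun x => meets (R x y)

variable (P)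

/-- In the extension there is no function from the natural numbers onto the ground model `ω₁`;
so the ground model `ω₁` is still the first uncountable cardinal. -/
def OmegaOnePreserved : Set P :=
  fnot (fex fun R : ℕ → Om → Set P => fand (IsFun R) (IsOnto R))

/-- `∃ T, NormalSouslinTree T` holds in the extension. -/
def ForcesSouslinTree : Set P :=
  fex fun T : Om × ℕ → Om × ℕ → Set P =>
  fand (fall fun x => meets (T x x)) <|
  fand (fall fun x => fall fun y => fall fun z =>
    fimp (fand (meets (T x y)) (meets (T y z))) (meets (T x z))) <|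
  fand (fall fun x => fall fun y => fimp (meets (T x y)) (fground (x.1 ≤ y.1))) <|
  fand (fall fun y : Om × ℕ => fall fun α : Om => fall fun _ : α ≤ y.1 => fex fun n : ℕ =>
    meets (T (α, n) y)) <|
  fand (fall fun y : Om × ℕ => fall fun α : Om => fall fun n : ℕ => fall fun n' : ℕ =>
    fimp (fand (meets (T (α, n) y)) (meets (T (α, n') y))) (fground (n = n'))) <|
  fand (fall fun x : Om × ℕ => fall fun β : Om => fall fun _ : x.1 < β => fall fun N : ℕ =>
    fex fun m : ℕ => fand (fground (N ≤ m)) (meets (T x (β, m)))) <|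
  fall fun f : Om → Om × ℕ → Set P => fimp (IsFun f)
    (fex fun a : Om => fex fun b : Om => fand (fground (a ≠ b))
      (fex fun x : Om × ℕ => fex fun y : Om × ℕ =>
        fand (fand (meets (f a x)) (meets (f b y))) (meets (T x y))))

/-- `RealsSmall` holds in the extension. -/
def ForcesRealsSmall : Set P :=
  fall fun x : Om → ℕ → Set P => fex fun r : ℕ → Set P => fall fun a : Om => fex fun N : ℕ =>
    fall fun n : ℕ => fall fun _ : N ≤ n => fex fun i : ℕ => fand (fground (i < n))
      (fnot (fiff (meets (x a (Nat.pair n i))) (meets (r (Nat.pair n i)))))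

end

theorem space (h : ∃ T, NormalSouslinTree T) : ∃ (X : Type) (_ : TopologicalSpace X),
    #X = ℵ₁ ∧ IsDowker X ∧ FirstCountableTopology X ∧ LocallyCountable X := by
  classical
  obtain ⟨T, h1, h2, h3, h4, h5, h6, h7⟩ := h
  choose! f hf using h4
  let π : Om → Om → ℕ → ℕ := fun α β m => f (β, m) α
  have hπ : ∀ α β m, α ≤ β → T (α, π α β m) (β, m) := fun α β m h => hf (β, m) α h
  have hπ' : ∀ (x y : Om × ℕ), T x y → π x.1 y.1 y.2 = x.2 := fun x y h =>
    h5 y x.1 _ _ ⟨hπ x.1 y.1 y.2 (h3 _ _ h), h⟩
  have hNT : Pool.Agent.H686R2.Dow.NT Set.univ π := by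
    refine ⟨fun α _ m => hπ' (α, m) (α, m) (h1 _), fun α β γ m hαβ hβγ _ => ?_,
      fun α β n hαβ _ => ?_⟩
    · exact (hπ' (α, π α β (π β γ m)) (γ, m) (h2 _ _ _ ⟨hπ α β _ hαβ, hπ β γ m hβγ⟩)).symm
    · intro hfin
      obtain ⟨N, hN⟩ := hfin.bddAbove
      obtain ⟨m, hm1, hm2⟩ := h6 (α, n) β hαβ (N + 1)
      have h8 : m ≤ N := hN (hπ' (α, n) (β, m) hm2)
      omega
  have hS : Pool.Agent.H686R2.Dow.Tree.Souslin π := by
    intro S hS
    by_contra hcS
    have hle : #Om ≤ #S := by
      rw [Cardinal.mk_toType, Cardinal.card_ord]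
      have h8 : ¬ (#S ≤ ℵ₀) := fun h9 => hcS (Cardinal.le_aleph0_iff_set_countable.1 h9)
      rw [← Cardinal.succ_aleph0]
      exact Order.succ_le_of_lt (not_le.1 h8)
    obtain ⟨g⟩ := hle
    obtain ⟨a, b, hab, x, y, ⟨hx, hy⟩, hxy⟩ := h7 (fun a x => (g a : Om × ℕ) = x)
      ⟨fun a => ⟨_, rfl⟩, fun a x y h => h.1.symm.trans h.2⟩
    have hx' : (g a : Om × ℕ) = x := hx
    have hy' : (g b : Om × ℕ) = y := hy
    refine hS x (hx' ▸ (g a).2) y (hy' ▸ (g b).2) ?_ ⟨h3 _ _ hxy, hπ' _ _ hxy⟩
    rw [← hx', ← hy']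
    exact fun h => hab (g.injective (Subtype.ext h))
  obtain ⟨τ, t1, t2, t3, t4, t5⟩ := Pool.Agent.H686R2.Dow.Tree.dowker
    Pool.Agent.H686R2.Dow.JT.hc Pool.Agent.H686R2.Dow.JT.hu hNT hS
  refine ⟨Om × ℕ, τ, ?_, ⟨?_, t2, t3⟩, t4, t5⟩
  · have hW : #Om = ℵ₁ := by rw [Cardinal.mk_toType, Cardinal.card_ord]
    rw [Cardinal.mk_prod, hW]
    simp [Cardinal.aleph0_le_aleph, Cardinal.mul_aleph0_eq]
  · infer_instance

/-- (1) Some forcing notion preserves `ω₁`, forces that there is a normal Souslin tree and forces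
that every family of `ℵ₁` reals is small. (2) In ZFC, a normal Souslin tree gives a first
countable, locally countable Dowker space of size `ℵ₁`. (3) In ZFC, if every family of `ℵ₁` reals
is small then there is no Lusin set. Hence in the forcing extensions of (1) there is a first
countable, locally countable Dowker space of size `ℵ₁` but no Lusin set. -/
theorem result :
    (∃ (P : Type) (_ : Preorder P), Nonempty P ∧ ∀ p : P,
      p ∈ OmegaOnePreserved P ∧ p ∈ ForcesSouslinTree P ∧ p ∈ ForcesRealsSmall P) ∧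
    ((∃ T, NormalSouslinTree T) → ∃ (X : Type) (_ : TopologicalSpace X),
      #X = ℵ₁ ∧ IsDowker X ∧ FirstCountableTopology X ∧ LocallyCountable X) ∧
    (RealsSmall → ¬ ∃ L : Set ℝ, IsLusin L) := by
  refine ⟨?_, space, fun h => Pool.Agent.H686R2.Dow.NoLusin.not_lusin h⟩
  let P := Pool.Agent.H686R2.Dow.JT.TC
  let μ := Pool.Agent.H686R2.Dow.Reals.mu P
  refine ⟨P × Pool.Agent.H686R2.Dow.Meas.Pos μ, inferInstance, ?_, fun p => ⟨?_, ?_, ?_⟩⟩
  · have h1 : Nonempty P := inferInstance
    have h2 : Nonempty (Pool.Agent.H686R2.Dow.Meas.Pos μ) :=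
      ⟨⟨Set.univ, MeasurableSet.univ, by rw [MeasureTheory.measure_univ]; exact one_ne_zero⟩⟩
    exact inferInstance
  · exact Pool.Agent.H686R2.Dow.Exh.omega Pool.Agent.H686R2.Dow.JT.tc_sigmaClosed p
  · exact Pool.Agent.Helper220.ForceCH.mem_fex.2 fun q _ =>
      ⟨q, le_rfl, _, Pool.Agent.H686R2.Dow.Seal.souslin q⟩
  · exact Pool.Agent.H686R2.Dow.Reals.realsSmall Pool.Agent.H686R2.Dow.JT.tc_sigmaClosed p

end Pool.Agent.Results.MP_cba831_lc.DowkerWithoutLusin
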